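import Mathlib

set_option autoImplicit false

namespace Pool.Agent.Results.MP_691331_co.Counter

open SimpleGraph

variable {V : Type} (G : SimpleGraph V)

/-- The list `l` of distinct vertices is an induced path. -/
def IndPath (l : List V) : Prop :=
  l.Nodup ∧ ∀ i j : Fin l.length, G.Adj l[i] l[j] ↔ (i.1 + 1 = j.1 ∨ j.1 + 1 = i.1)

/-- Independent sets in monophonic position. -/
def IndMP (X : Set V) : Prop :=
  (∀ u ∈ X, ∀ v ∈ X, ¬G.Adj u v) ∧ ∀ u ∈ X, ∀ v ∈ X, ∀ l, IndPath G l → l.head? = some u →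
    l.getLast? = some v → ∀ z ∈ l, z ∈ X → z = u ∨ z = v

/-- The independent monophonic position chromatic number. -/
noncomputable def chi : ℕ := sInf {k | ∃ c : V → Fin k, ∀ i, IndMP G (c ⁻¹' {i})}

lemma low {n m : ℕ} (G : SimpleGraph (Fin n))
    (h : ∀ k (c : Fin n → Fin k), (∀ i, IndMP G (c ⁻¹' {i})) → m ≤ k) : m ≤ chi G :=
  le_csInf ⟨n, id, fun _ => ⟨by rintro _ rfl _ rfl; exact G.irrefl,
    by rintro _ rfl _ - _ - - - _ - rfl; exact .inl rfl⟩⟩ fun k ⟨c, hc⟩ => h k c hc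

/-- Neighbourhoods as bit masks. -/
def nb : Fin 14 → ℕ := ![2976, 8416, 15680, 12672, 15872, 3, 6, 11, 13, 17, 20, 21, 28, 30]

/-- The graph. -/
def H : SimpleGraph (Fin 14) where
  Adj a b := (nb a).testBit b
  symm := ⟨by decide +kernel⟩
  loopless := ⟨by decide +kernel⟩

instance : DecidableRel H.Adj := fun a b => inferInstanceAs (Decidable ((nb a).testBit b))

instance (l : List (Fin 14)) : Decidable (IndPath H l) := inferInstanceAs (Decidable (_ ∧ _))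

/-- Induced paths. -/
def L : List (List (Fin 14)) := [
  [5, 1, 7, 3, 8, 2, 11, 4, 9], [1, 7, 3, 8, 2, 11, 4, 9], [3, 12, 4, 9, 0, 5, 1, 6],
  [4, 10, 2, 8, 3, 7, 1, 5], [0, 5, 1, 6, 2, 10, 4], [1, 5, 0, 11, 2, 12, 3],
  [1, 7, 3, 8, 2, 10, 4], [2, 10, 4, 9, 0, 7, 3], [5, 0, 9, 4, 12, 2, 6], [5, 1, 7, 3, 8, 2, 11],
  [6, 1, 7, 0, 9, 4, 12], [6, 1, 7, 3, 12, 4, 11], [6, 1, 13, 4, 9, 0, 8], [6, 2, 13, 4, 9, 0, 7],
  [7, 3, 8, 2, 11, 4, 9], [8, 0, 5, 1, 13, 4, 12], [9, 0, 5, 1, 13, 2, 12],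
  [11, 0, 5, 1, 13, 3, 12], [0, 5, 1, 13, 2, 12], [2, 8, 3, 7, 1, 5], [4, 10, 2, 8, 0, 7],
  [5, 0, 7, 3, 13, 2, 6], [6, 1, 13, 3, 8, 0, 11], [0, 5, 1, 6, 2], [0, 7, 3, 12, 4],
  [5, 0, 7, 3, 12], [5, 0, 7, 3, 13], [5, 0, 8, 2, 6], [5, 0, 8, 2, 13], [5, 0, 9, 4, 13],
  [5, 0, 11, 2, 6], [5, 0, 11, 2, 13], [5, 1, 7, 3, 8], [5, 1, 13, 2, 12], [6, 1, 7, 0, 8],
  [6, 1, 13, 3, 12], [6, 1, 13, 4, 9], [6, 2, 11, 0, 9], [7, 0, 8, 2, 12], [7, 0, 8, 2, 13],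
  [7, 0, 9, 4, 12], [7, 0, 9, 4, 13], [7, 0, 11, 2, 12], [7, 0, 11, 2, 13], [7, 1, 13, 2, 12],
  [7, 3, 8, 2, 11], [8, 0, 9, 4, 12], [8, 0, 9, 4, 13], [8, 0, 11, 4, 12], [8, 0, 11, 4, 13],
  [8, 2, 11, 4, 9], [9, 0, 11, 2, 12], [9, 0, 11, 2, 13], [0, 7, 3, 13, 2, 6],
  [1, 7, 3, 8, 2, 11], [3, 8, 2, 11, 4, 9], [6, 1, 5, 0, 8, 3, 12]]

lemma l1 : ∀ l ∈ L, IndPath H l := by decide +kernel

/-- Ends and an inner vertex. -/
def Q (l : List (Fin 14)) (a b c : Fin 14) : Prop := l.head? = some a ∧ l.getLast? = some b ∧ c ∈ l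

instance (l : List (Fin 14)) (a b c : Fin 14) : Decidable (Q l a b c) :=
  inferInstanceAs (Decidable (_ ∧ _))

/-- Some path through the triple. -/
def T (a b c : Fin 14) : Prop := ∃ l ∈ L, Q l a b c ∨ Q l a c b ∨ Q l b c a

instance (a b c : Fin 14) : Decidable (T a b c) := List.decidableBEx _ _

lemma l2 : ∀ a b c : Fin 14, a < b → b < c → a ≠ 10 → b ≠ 10 → c ≠ 10 →
    H.Adj a b ∨ H.Adj a c ∨ H.Adj b c ∨ T a b c := by decide +kernel

/-- The Nordhaus-Gaddum inequality fails for independent monophonic position colourings. -/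
theorem result : ∃ (n : ℕ) (G : SimpleGraph (Fin n)), n + 2 ≤ chi G + chi Gᶜ := by
  have a : 7 ≤ chi H := low H fun k c h => by
    have := Finset.card_le_mul_card_image_of_maps_to (f := c) (s := {10}ᶜ) (t := Finset.univ)
      (by simp) 2 fun i _ => by
        by_contra! n
        let s := Finset.filter (c · = i) {10}ᶜ
        have m : ∀ j, c (s.orderEmbOfCardLe n j) = i ∧ s.orderEmbOfCardLe n j ≠ 10 := fun j => by
          simpa [s, and_comm] using s.orderEmbOfCardLe_mem n j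
        have p := (s.orderEmbOfCardLe n).strictMono (show (0 : Fin 3) < 1 by decide)
        have q := (s.orderEmbOfCardLe n).strictMono (show (1 : Fin 3) < 2 by decide)
        rcases l2 _ _ _ p q (m 0).2 (m 1).2 (m 2).2 with
          e | e | e | ⟨l, hl, ⟨e, f, g⟩ | ⟨e, f, g⟩ | ⟨e, f, g⟩⟩
        exacts [(h i).1 _ (m _).1 _ (m _).1 e, (h i).1 _ (m _).1 _ (m _).1 e,
          (h i).1 _ (m _).1 _ (m _).1 e,
          ((h i).2 _ (m _).1 _ (m _).1 l (l1 l hl) e f _ g (m _).1).elim (p.trans q).ne' q.ne',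
          ((h i).2 _ (m _).1 _ (m _).1 l (l1 l hl) e f _ g (m _).1).elim p.ne' q.ne,
          ((h i).2 _ (m _).1 _ (m _).1 l (l1 l hl) e f _ g (m _).1).elim p.ne (p.trans q).ne]
    simp [Finset.card_compl] at this
    omega
  have b : 9 ≤ chi Hᶜ := low Hᶜ fun k c h => by
    have e : ∀ a b : Fin 9, a ≠ b → Hᶜ.Adj (a.natAdd 5) (b.natAdd 5) := by decide +kernel
    simpa using Fintype.card_le_of_injective (fun a : Fin 9 => c (a.natAdd 5)) fun a b q =>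
      by_contra fun n => (h _).1 _ q _ rfl (e a b n)
  exact ⟨14, H, by omega⟩

end Pool.Agent.Results.MP_691331_co.Counter
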